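import Pool.Agent.W586.GZ.Stm

/-!
Project GZ, part DSEQ: dependent sequences of exact pairs.
-/

set_option autoImplicit false
open Filter Topology

namespace Pool.Agent.W605.GZ.DSEQ
open Pool.Agent.W586.GZ

/-- the index of the interval of `n` -/
lemma exists_idx (M : ℕ → ℕ) (hM : StrictMono M) (h0 : M 0 = 0) :
    ∃ idx : ℕ → ℕ, ∀ n i, idx n = i ↔ (M i ≤ n ∧ n < M (i + 1)) := by
  classical
  have hex : ∀ n, ∃ i, n < M (i + 1) := by
    intro n
    exact ⟨n, lt_of_lt_of_le (Nat.lt_succ_self n) (hM.id_le (n + 1))⟩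
  refine ⟨fun n => Nat.find (hex n), ?_⟩
  have h1 : ∀ n, M (Nat.find (hex n)) ≤ n ∧ n < M (Nat.find (hex n) + 1) := by
    intro n
    refine ⟨?_, Nat.find_spec (hex n)⟩
    rcases Nat.eq_zero_or_pos (Nat.find (hex n)) with h | h
    · rw [h, h0]; exact Nat.zero_le _
    · have h2 := Nat.find_min (hex n) (m := Nat.find (hex n) - 1) (by omega)
      have h3 : Nat.find (hex n) - 1 + 1 = Nat.find (hex n) := by omega
      rw [h3] at h2
      exact Nat.not_lt.mp h2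
  intro n i
  constructor
  · intro h
    have := h1 n
    change Nat.find (hex n) = i at h
    rw [h] at this
    exact this
  · rintro ⟨h2, h3⟩
    change Nat.find (hex n) = i
    obtain ⟨h4, h5⟩ := h1 n
    rcases lt_trichotomy (Nat.find (hex n)) i with h | h | h
    · have : M (Nat.find (hex n) + 1) ≤ M i := hM.monotone h
      omega
    · exact h
    · have : M (i + 1) ≤ M (Nat.find (hex n)) := hM.monotone h
      omega

/-- gluing of the block diagonal matrices on successive intervals -/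
lemma glue (t : ℕ → ℕ → ℝ) (M : ℕ → ℕ) (hM : StrictMono M) (h0 : M 0 = 0)
    (y : ℕ → ℕ → ℝ) (κ : ℕ → ℕ → ℕ) (hy : ∀ i n, y i n ≠ 0 → M i ≤ n ∧ n < M (i + 1)) :
    ∃ K : ℕ → ℕ, ∀ k i, i < k → ∀ n, M i ≤ n → n < M (i + 1) →
      mv (blk K t) (Finset.range (M k)) (fun n => ∑ i ∈ Finset.range k, y i n) n =
        mv (blk (κ i) t) (Finset.Ico (M i) (M (i + 1))) (y i) n := by
  obtain ⟨idx, hidx⟩ := exists_idx M hM h0
  refine ⟨fun n => Nat.pair (idx n) (κ (idx n) n), ?_⟩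
  intro k i hik n hn1 hn2
  have hle : M (i + 1) ≤ M k := hM.monotone hik
  have hn : idx n = i := (hidx n i).mpr ⟨hn1, hn2⟩
  rw [mv_apply_of_mem _ _ _ _ (Finset.mem_range.mpr (lt_of_lt_of_le hn2 hle)),
    mv_apply_of_mem _ _ _ _ (Finset.mem_Ico.mpr ⟨hn1, hn2⟩)]
  symm
  have hsub : Finset.Ico (M i) (M (i + 1)) ⊆ Finset.range (M k) := by
    intro l hl
    rw [Finset.mem_Ico] at hl
    exact Finset.mem_range.mpr (lt_of_lt_of_le hl.2 hle)
  rw [← Finset.sum_subset hsub]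
  · apply Finset.sum_congr rfl
    intro l hl
    rw [Finset.mem_Ico] at hl
    have hl' : idx l = i := (hidx l i).mpr hl
    have h2 : ∑ i' ∈ Finset.range k, y i' l = y i l := by
      apply Finset.sum_eq_single_of_mem i (Finset.mem_range.mpr hik)
      intro i' _ hne
      by_contra hc
      exact hne (((hidx l i').mpr (hy i' l hc)).symm.trans hl')
    have h3 : blk (fun n => Nat.pair (idx n) (κ (idx n) n)) t n l = blk (κ i) t n l := by
      unfold blk
      simp only [hn, hl', Nat.pair_eq_pair, true_and]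
    change blk (κ i) t n l * y i l =
      blk (fun n => Nat.pair (idx n) (κ (idx n) n)) t n l * ∑ i' ∈ Finset.range k, y i' l
    rw [h2, h3]
  · intro l _ hl
    rw [Finset.mem_Ico] at hl
    have hl' : idx l ≠ idx n := by
      rw [hn]
      intro h
      exact hl ((hidx l i).mp h)
    have h3 : blk (fun n => Nat.pair (idx n) (κ (idx n) n)) t n l = 0 := by
      unfold blk
      simp only [Nat.pair_eq_pair]
      rw [if_neg]
      rintro ⟨h, _⟩
      exact hl' h.symm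
    rw [h3, zero_mul]

theorem main : S_DSEQ := by
  classical
  intro P t δ hδ hP j
  have step : ∀ s : List (ℕ →₀ ℚ) × ℕ × ℕ,
      ∃ r : ℕ × ℕ × (ℕ → ℝ) × (ℕ →₀ ℚ) × (ℕ → ℕ), s.2.1 < r.1 ∧ j < r.1 ∧ P.tau r.1 = s.1 ∧
        s.2.2 < r.2.1 ∧ Exact P r.1 r.2.2.1 ∧ W P (some (2 * r.1)) r.2.2.2.1 ∧
        (∀ n, r.2.2.1 n ≠ 0 → s.2.2 ≤ n ∧ n < r.2.1) ∧
        (∀ n, r.2.2.2.1 n ≠ 0 → s.2.2 ≤ n ∧ n < r.2.1) ∧
        (∀ n, r.2.2.2.1 n ≠ 0 → r.2.2.1 n = 0) ∧
        δ ≤ ev r.2.2.2.1 (mv (blk r.2.2.2.2 t) (Finset.Ico s.2.2 r.2.1) r.2.2.1) := by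
    rintro ⟨L, q0, M0⟩
    obtain ⟨q, hq1, hq2⟩ := P.tauI L (q0 + j + 1)
    obtain ⟨M1, y, f, κ, h1, h2, h3, h4, h5, h6, h7⟩ := hP q M0 (by omega)
    exact ⟨(q, M1, y, f, κ), by simp only; omega, by simp only; omega, hq2, h1, h2, h3, h4, h5,
      h6, h7⟩
  choose R hR using step
  let S : ℕ → List (ℕ →₀ ℚ) × ℕ × ℕ := fun i =>
    Nat.rec ([], 0, 0) (fun _ s => (s.1 ++ [(R s).2.2.2.1], (R s).1, (R s).2.1)) i
  have hS0 : S 0 = ([], 0, 0) := rfl
  have hS1 : ∀ i, S (i + 1) =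
      ((S i).1 ++ [(R (S i)).2.2.2.1], (R (S i)).1, (R (S i)).2.1) := fun i => rfl
  obtain ⟨M, hMd⟩ : ∃ M : ℕ → ℕ, ∀ i, M i = (S i).2.2 := ⟨_, fun _ => rfl⟩
  obtain ⟨q, hqd⟩ : ∃ q : ℕ → ℕ, ∀ i, q i = (R (S i)).1 := ⟨_, fun _ => rfl⟩
  obtain ⟨y, hyd⟩ : ∃ y : ℕ → ℕ → ℝ, ∀ i, y i = (R (S i)).2.2.1 := ⟨_, fun _ => rfl⟩
  obtain ⟨f, hfd⟩ : ∃ f : ℕ → (ℕ →₀ ℚ), ∀ i, f i = (R (S i)).2.2.2.1 := ⟨_, fun _ => rfl⟩
  obtain ⟨κ, hκd⟩ : ∃ κ : ℕ → ℕ → ℕ, ∀ i, κ i = (R (S i)).2.2.2.2 := ⟨_, fun _ => rfl⟩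
  have hMs : ∀ i, (R (S i)).2.1 = M (i + 1) := by
    intro i; rw [hMd, hS1]
  have hqs : ∀ i, (S (i + 1)).2.1 = q i := by
    intro i; rw [hqd, hS1]
  have hL : ∀ i, (S i).1 = (List.range i).map f := by
    intro i
    induction i with
    | zero => rw [hS0]; simp
    | succ i ih =>
      rw [hS1, List.range_succ, List.map_append, ← ih]
      simp [hfd]
  have hR' : ∀ i, (S i).2.1 < q i ∧ j < q i ∧ P.tau (q i) = (List.range i).map f ∧
      M i < M (i + 1) ∧ Exact P (q i) (y i) ∧ W P (some (2 * q i)) (f i) ∧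
      (∀ n, y i n ≠ 0 → M i ≤ n ∧ n < M (i + 1)) ∧
      (∀ n, f i n ≠ 0 → M i ≤ n ∧ n < M (i + 1)) ∧
      (∀ n, f i n ≠ 0 → y i n = 0) ∧
      δ ≤ ev (f i) (mv (blk (κ i) t) (Finset.Ico (M i) (M (i + 1))) (y i)) := by
    intro i
    have h := hR (S i)
    rw [← hqd, ← hyd, ← hfd, ← hκd, hMs, ← hMd, hL] at h
    exact h
  have hM0 : M 0 = 0 := by rw [hMd, hS0]
  have hM : StrictMono M := strictMono_nat_of_lt_succ fun i => (hR' i).2.2.2.1
  have hq : StrictMono q := by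
    apply strictMono_nat_of_lt_succ
    intro i
    have h := (hR' (i + 1)).1
    rwa [hqs] at h
  have hys : ∀ i n, y i n ≠ 0 → M i ≤ n ∧ n < M (i + 1) := fun i => (hR' i).2.2.2.2.2.2.1
  have hfs : ∀ i n, f i n ≠ 0 → M i ≤ n ∧ n < M (i + 1) := fun i => (hR' i).2.2.2.2.2.2.2.1
  obtain ⟨K, hK⟩ := glue t M hM hM0 y κ hys
  refine ⟨y, f, q, K, M (P.n (2 * j + 1)), ?_, ?_⟩
  · refine ⟨fun i _ => (hR' i).2.1, fun i l h _ => hq h, fun i _ => (hR' i).2.2.2.2.1,
      fun i _ => (hR' i).2.2.2.2.2.1, fun i _ => (hR' i).2.2.1, ?_, ?_, ?_⟩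
    · intro i l hil _ p r hp hr
      have h1 := hys i p hp
      have h2 := hys l r hr
      have h3 : M (i + 1) ≤ M l := hM.monotone hil
      omega
    · intro i l hil _ p r hp hr
      have h1 := hfs i p hp
      have h2 := hfs l r hr
      have h3 : M (i + 1) ≤ M l := hM.monotone hil
      omega
    · intro i l _ _ n hn
      rcases lt_trichotomy i l with h | h | h
      · by_contra hc
        have h1 := hfs i n hn
        have h2 := hys l n hc
        have h3 : M (i + 1) ≤ M l := hM.monotone h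
        omega
      · subst h
        exact (hR' i).2.2.2.2.2.2.2.2.1 n hn
      · by_contra hc
        have h1 := hfs i n hn
        have h2 := hys l n hc
        have h3 : M (l + 1) ≤ M i := hM.monotone h
        omega
  · rw [ev_smul, ev_sum]
    have h1 : ∀ i ∈ Finset.range (P.n (2 * j + 1)),
        δ ≤ ev (f i) (mv (blk K t) (Finset.range (M (P.n (2 * j + 1))))
          (fun n => ∑ i ∈ Finset.range (P.n (2 * j + 1)), y i n)) := by
      intro i hi
      rw [Finset.mem_range] at hi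
      refine (hR' i).2.2.2.2.2.2.2.2.2.trans (le_of_eq ?_)
      apply ev_congr
      intro n hn
      have h2 := hfs i n hn
      rw [hK _ i hi n h2.1 h2.2]
    have h2 := Finset.sum_le_sum h1
    rw [Finset.sum_const, Finset.card_range, nsmul_eq_mul] at h2
    have h3 : (0 : ℝ) ≤ (P.m (2 * j + 1) : ℝ)⁻¹ := inv_nonneg.mpr (P.mpos' _).le
    have h4 := mul_le_mul_of_nonneg_left h2 h3
    push_cast
    rw [div_eq_inv_mul]
    exact h4

end Pool.Agent.W605.GZ.DSEQ
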